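import Pool.Agent.Helper11.Geo

/-!
# Specialisation at rational points at which given global functions have prescribed values

`value s g` is the value of the global function `g` at the rational point `s`.  If a set `T` of rational
points of an integral scheme `V` is dense, then polynomial relations between elements of the function
field and global functions specialise to relations between rational numbers and the values of the
global functions at some point in `T`.
-/

set_option autoImplicit false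

open AlgebraicGeometry CategoryTheory

namespace Pool.Agent.Helper81.LV

/-- The value of the global function `g` at the rational point `s`. -/
noncomputable def value {V : Scheme.{0}} (s : Spec (CommRingCat.of ℚ) ⟶ V) (g : Γ(V, ⊤)) : ℚ :=
  (Scheme.ΓSpecIso (CommRingCat.of ℚ)).hom.hom (s.appTop.hom g)

/-- The germ of a global function at the generic point, an element of the function field. -/
noncomputable def germ {V : Scheme.{0}} [IsIntegral V] (g : Γ(V, ⊤)) : V.functionField :=
  (V.presheaf.germ ⊤ (genericPoint V) trivial).hom g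

/-- A rational point in the open set `O` gives a ring homomorphism `Γ(V, O) → ℚ` extending the
values of global functions. -/
theorem exists_hom_value {V : Scheme.{0}} (O : V.Opens) (s : Spec (CommRingCat.of ℚ) ⟶ V)
    (hs : s (IsLocalRing.closedPoint ℚ) ∈ O) :
    ∃ φ : Γ(V, O) →+* ℚ, ∀ g : Γ(V, ⊤),
      φ ((V.presheaf.map (homOfLE (le_top : O ≤ ⊤)).op).hom g) = value s g := by
  have htop : s ⁻¹ᵁ O = ⊤ := by
    ext x
    have hx : x = IsLocalRing.closedPoint ℚ := Subsingleton.elim _ _
    simp only [hx]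
    exact ⟨fun _ => trivial, fun _ => hs⟩
  refine ⟨((Scheme.ΓSpecIso (CommRingCat.of ℚ)).hom.hom).comp
    (((Spec (CommRingCat.of ℚ)).presheaf.map (eqToHom htop.symm).op).hom.comp (s.app O).hom),
    fun g => ?_⟩
  have hnat := s.naturality (homOfLE (le_top : O ≤ ⊤)).op
  have h1 : (s.app O).hom ((V.presheaf.map (homOfLE (le_top : O ≤ ⊤)).op).hom g) =
      ((Spec (CommRingCat.of ℚ)).presheaf.map
        ((TopologicalSpace.Opens.map s.base).map (homOfLE (le_top : O ≤ ⊤))).op).hom
          ((s.app ⊤).hom g) := by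
    have h2 := congrArg (fun m => m.hom g) hnat
    exact h2
  show (Scheme.ΓSpecIso (CommRingCat.of ℚ)).hom.hom
    (((Spec (CommRingCat.of ℚ)).presheaf.map (eqToHom htop.symm).op).hom
      ((s.app O).hom ((V.presheaf.map (homOfLE (le_top : O ≤ ⊤)).op).hom g))) = value s g
  rw [h1]
  unfold value
  congr 1

theorem specialise_int {V : Scheme.{0}} [IsIntegral V] (f : V ⟶ Spec (CommRingCat.of ℚ))
    {τ υ : Type} [Finite τ] [Finite υ] (z : τ → V.functionField) (g : υ → Γ(V, ⊤)) {t₀ : τ}
    (h0 : z t₀ ≠ 0) (T : Set (Spec (CommRingCat.of ℚ) ⟶ V)) (hT : ∀ s ∈ T, s ≫ f = 𝟙 _)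
    (hdense : Dense {P | ∃ s ∈ T, s (IsLocalRing.closedPoint ℚ) = P}) :
    ∃ s ∈ T, ∃ z' : τ → ℚ, z' t₀ ≠ 0 ∧ ∀ G : MvPolynomial (τ ⊕ υ) ℤ,
      MvPolynomial.aeval (Sum.elim z (fun j => germ (g j))) G = 0 →
      MvPolynomial.aeval (Sum.elim z' (fun j => value s (g j))) G = 0 := by
  obtain ⟨m, ⟨e⟩⟩ := Finite.exists_equiv_fin τ
  obtain ⟨U, hU, z', hUne, hzz, hzu⟩ := exists_isUnit_germ_eq V (z t₀) h0
  obtain ⟨W, hWne, b, hb⟩ :=
    Pool.Agent.Helper11.exists_sections (V := V) (fun i : Fin m => z (e.symm i))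
  have hgU : genericPoint V ∈ U :=
    ((genericPoint_spec V).mem_open_set_iff U.isOpen).mpr (by simpa using hUne)
  have hgW : genericPoint V ∈ W :=
    ((genericPoint_spec V).mem_open_set_iff W.isOpen).mpr (by simpa using hWne)
  have hne : Nonempty (U ⊓ W : V.Opens) := ⟨⟨genericPoint V, hgU, hgW⟩⟩
  obtain ⟨P, hP, s, hsT, hs⟩ := hdense.inter_open_nonempty (U ⊓ W : V.Opens) (U ⊓ W).isOpen
    ⟨genericPoint V, hgU, hgW⟩
  obtain ⟨φ, hφ⟩ := exists_hom_value (U ⊓ W) s (by rw [hs]; exact hP)
  set ι : Γ(V, U ⊓ W) →+* V.functionField := (V.germToFunctionField (U ⊓ W)).hom with hι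
  have hinj : Function.Injective ι := V.germToFunctionField_injective (U ⊓ W)
  let bb : τ → Γ(V, U ⊓ W) := fun t =>
    V.presheaf.map (homOfLE (inf_le_right : U ⊓ W ≤ W)).op (b (e t))
  let gg : υ → Γ(V, U ⊓ W) := fun j =>
    (V.presheaf.map (homOfLE (le_top : U ⊓ W ≤ ⊤)).op).hom (g j)
  have hbb : ∀ t, ι (bb t) = z t := by
    intro t
    have h1 := hb (e t)
    rw [Equiv.symm_apply_apply] at h1
    rw [← h1]
    exact V.presheaf.germ_res_apply (homOfLE (inf_le_right : U ⊓ W ≤ W)) (genericPoint V)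
      ⟨hgU, hgW⟩ (b (e t))
  have hgg : ∀ j, ι (gg j) = germ (g j) := by
    intro j
    exact V.presheaf.germ_res_apply (homOfLE (le_top : U ⊓ W ≤ ⊤)) (genericPoint V)
      ⟨hgU, hgW⟩ (g j)
  have hz0 : φ (bb t₀) ≠ 0 := by
    have h1 : ι (V.presheaf.map (homOfLE (inf_le_left : U ⊓ W ≤ U)).op z') = z t₀ := by
      rw [← hzz]
      exact V.presheaf.germ_res_apply (homOfLE (inf_le_left : U ⊓ W ≤ U)) (genericPoint V)
        ⟨hgU, hgW⟩ z'
    have h2 : (V.presheaf.map (homOfLE (inf_le_left : U ⊓ W ≤ U)).op z' : Γ(V, U ⊓ W)) = bb t₀ :=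
      hinj (by rw [h1, hbb])
    rw [← h2]
    exact ((hzu.map _).map φ).ne_zero
  refine ⟨s, hsT, fun t => φ (bb t), hz0, ?_⟩
  intro G hG
  have h3 : (fun x : τ ⊕ υ => ι.toIntAlgHom (Sum.elim bb gg x)) =
      Sum.elim z (fun j => germ (g j)) := by
    funext x
    rcases x with t | j
    · exact hbb t
    · exact hgg j
  have h4 : (fun x : τ ⊕ υ => φ.toIntAlgHom (Sum.elim bb gg x)) =
      Sum.elim (fun t => φ (bb t)) (fun j => value s (g j)) := by
    funext x
    rcases x with t | j
    · rfl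
    · exact hφ (g j)
  have h5 : ι (MvPolynomial.aeval (Sum.elim bb gg) G) = 0 := by
    have h6 := MvPolynomial.comp_aeval_apply (R := ℤ) (f := Sum.elim bb gg) ι.toIntAlgHom G
    rw [h3, hG] at h6
    exact h6
  have h7 : MvPolynomial.aeval (Sum.elim bb gg) G = 0 := hinj (by rw [h5, map_zero])
  have h8 := MvPolynomial.comp_aeval_apply (R := ℤ) (f := Sum.elim bb gg) φ.toIntAlgHom G
  rw [h7, map_zero, h4] at h8
  exact h8.symm

end Pool.Agent.Helper81.LV
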